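import Mathlib

set_option autoImplicit false

namespace Pool.Agent.Results.MP_95a67a_ag.Counter

open MvPolynomial

/-- The real cone spanned by the rays indexed by `σ`. -/
def cone {n r : ℕ} (u : Fin r → Fin n → ℤ) (σ : Finset (Fin r)) : Set (Fin n → ℝ) :=
  {x | ∃ c : Fin r → ℝ, (∀ ρ, 0 ≤ c ρ) ∧ ∀ j, x j = ∑ ρ ∈ σ, c ρ * (u ρ j : ℝ)}

/-- `Sig` lists the cones (by their sets of rays) of a complete simplicial fan in `ℝ^n`
whose rays have the primitive generators `u ρ`. -/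
structure IsCompleteSimplicialFan {n r : ℕ} (u : Fin r → Fin n → ℤ)
    (Sig : Finset (Finset (Fin r))) : Prop where
  primitive : ∀ ρ, Finset.univ.gcd (u ρ) = 1
  rays : ∀ ρ, {ρ} ∈ Sig
  faces : ∀ σ ∈ Sig, ∀ τ ⊆ σ, τ ∈ Sig
  simplicial : ∀ σ ∈ Sig, LinearIndependent ℝ (fun ρ : σ => fun j => (u ρ j : ℝ))
  inter : ∀ σ ∈ Sig, ∀ τ ∈ Sig, cone u σ ∩ cone u τ = cone u (σ ∩ τ)
  complete : ∀ x, ∃ σ ∈ Sig, x ∈ cone u σ

/-- Principal torus-invariant divisors: the vectors `(⟨m, u ρ⟩)_ρ`, `m ∈ ℤ^n`. -/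
def prin {n r : ℕ} (u : Fin r → Fin n → ℤ) : Submodule ℤ (Fin r → ℤ) :=
  LinearMap.range (Matrix.mulVecLin (Matrix.of u))

/-- The class group. -/
abbrev Cl {n r : ℕ} (u : Fin r → Fin n → ℤ) : Type := (Fin r → ℤ) ⧸ prin u

/-- The class `[D ρ]`, the degree of the variable `x ρ`. -/
def w {n r : ℕ} (u : Fin r → Fin n → ℤ) (ρ : Fin r) : Cl u :=
  Submodule.Quotient.mk (Pi.single ρ 1)

/-- The degree `α` component of the Cox ring. -/
def comp {n r : ℕ} (u : Fin r → Fin n → ℤ) (α : Cl u) : Submodule ℂ (MvPolynomial (Fin r) ℂ) :=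
  weightedHomogeneousSubmodule ℂ (w u) α

/-- The irrelevant ideal. -/
noncomputable def irr {r : ℕ} (Sig : Finset (Finset (Fin r))) : Ideal (MvPolynomial (Fin r) ℂ) :=
  Ideal.span {g | ∃ σ ∈ Sig, g = ∏ ρ ∈ σᶜ, X ρ}

/-- The critical degree of polynomials of degrees `α i`. -/
def crit {n r k : ℕ} (u : Fin r → Fin n → ℤ) (α : Fin k → Cl u) : Cl u :=
  ∑ i, α i - ∑ ρ, w u ρ

/-- The part of an ideal `I` lying in a subspace `V`, as a subspace of `V`. -/
noncomputable def part {r : ℕ} (I : Ideal (MvPolynomial (Fin r) ℂ))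
    (V : Submodule ℂ (MvPolynomial (Fin r) ℂ)) : Submodule ℂ V :=
  (I.restrictScalars ℂ).comap V.subtype

/-- The dimension of `V / (I ∩ V)`. -/
noncomputable def codim {r : ℕ} (I : Ideal (MvPolynomial (Fin r) ℂ))
    (V : Submodule ℂ (MvPolynomial (Fin r) ℂ)) : Cardinal :=
  Module.rank ℂ (V ⧸ part I V)

/-- The rays of the fan of the first Hirzebruch surface. -/
def u0 : Fin 4 → Fin 2 → ℤ := ![![1, 0], ![0, 1], ![-1, 1], ![0, -1]]

def Sig0 : Finset (Finset (Fin 4)) :=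
  {∅, {0}, {1}, {2}, {3}, {0, 1}, {1, 2}, {2, 3}, {0, 3}}

noncomputable def F0 : Fin 3 → MvPolynomial (Fin 4) ℂ :=
  ![X 0 * X 3 + X 2 ^ 2 * X 1, X 2 * X 3, X 0 * X 1 ^ 2]

theorem mem_cone (σ : Finset (Fin 4)) (x : Fin 2 → ℝ) :
    x ∈ cone u0 σ ↔ ∃ c : Fin 4 → ℝ, (∀ ρ, 0 ≤ c ρ) ∧ (∀ ρ, ρ ∉ σ → c ρ = 0) ∧
      x 0 = c 0 - c 2 ∧ x 1 = c 1 + c 2 - c 3 := by
  constructor
  · rintro ⟨c, hc, h⟩
    refine ⟨fun ρ => if ρ ∈ σ then c ρ else 0, fun ρ => ?_, fun ρ hρ => by simp [hρ], ?_, ?_⟩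
    · dsimp only; split_ifs
      · exact hc ρ
      · exact le_rfl
    · rw [h 0, ← Finset.univ_inter σ, ← Finset.sum_ite_mem, Fin.sum_univ_four]
      simp [u0]; split_ifs <;> ring
    · rw [h 1, ← Finset.univ_inter σ, ← Finset.sum_ite_mem, Fin.sum_univ_four]
      simp [u0]; split_ifs <;> ring
  · rintro ⟨c, hc, h0, h1, h2⟩
    refine ⟨c, hc, fun j => ?_⟩
    have : ∑ ρ ∈ σ, c ρ * (u0 ρ j : ℝ) = ∑ ρ, c ρ * (u0 ρ j : ℝ) :=
      Finset.sum_subset (Finset.subset_univ _) fun ρ _ hρ => by simp [h0 ρ hρ]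
    rw [this, Fin.sum_univ_four]
    fin_cases j <;> simp [u0] <;> linarith

/-- Coefficients of a point of a cone of the fan are unique. -/
theorem uniq (c d : Fin 4 → ℝ) (hc : ∀ ρ, 0 ≤ c ρ) (hd : ∀ ρ, 0 ≤ d ρ)
    (c1 : c 0 = 0 ∨ c 2 = 0) (c2 : c 1 = 0 ∨ c 3 = 0)
    (d1 : d 0 = 0 ∨ d 2 = 0) (d2 : d 1 = 0 ∨ d 3 = 0)
    (h1 : c 0 - c 2 = d 0 - d 2) (h2 : c 1 + c 2 - c 3 = d 1 + d 2 - d 3) : c = d := by
  have := hc 0; have := hc 1; have := hc 2; have := hc 3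
  have := hd 0; have := hd 1; have := hd 2; have := hd 3
  have e2 : c 2 = d 2 := by rcases c1 with h | h <;> rcases d1 with h' | h' <;> linarith
  have e3 : c 3 = d 3 := by rcases c2 with h | h <;> rcases d2 with h' | h' <;> linarith
  funext ρ
  fin_cases ρ <;> simp <;> linarith

theorem sig_prop : ∀ σ ∈ Sig0, ((0 : Fin 4) ∉ σ ∨ (2 : Fin 4) ∉ σ) ∧
    ((1 : Fin 4) ∉ σ ∨ (3 : Fin 4) ∉ σ) := by decide

theorem fan : IsCompleteSimplicialFan u0 Sig0 where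
  primitive := by decide
  rays := by decide
  faces := by decide
  simplicial := by
    intro σ hσ
    rw [linearIndependent_iff'']
    intro s g hg hs i
    set c : Fin 4 → ℝ := fun ρ => if h : ρ ∈ σ then g ⟨ρ, h⟩ else 0 with hcdef
    have key : ∀ j, ∑ ρ, c ρ * (u0 ρ j : ℝ) = 0 := by
      intro j
      have h1 := congrFun hs j
      simp only [Finset.sum_apply, Pi.smul_apply, smul_eq_mul, Pi.zero_apply] at h1
      rw [← h1, Finset.sum_subset (Finset.subset_univ s) (fun x _ hx => by simp [hg x hx])]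
      rw [← Finset.sum_subset (Finset.subset_univ σ) (fun x _ hx => by simp [hcdef, hx])]
      rw [← Finset.sum_coe_sort σ]
      exact Finset.sum_congr rfl fun x _ => by simp [hcdef, x.2]
    have k0 := key 0
    have k1 := key 1
    simp [Fin.sum_univ_four, u0] at k0 k1
    obtain ⟨p, q⟩ := sig_prop σ hσ
    have c1 : c 0 = 0 ∨ c 2 = 0 := p.imp (fun h => by simp [hcdef, h]) (fun h => by simp [hcdef, h])
    have c2 : c 1 = 0 ∨ c 3 = 0 := q.imp (fun h => by simp [hcdef, h]) (fun h => by simp [hcdef, h])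
    have hz : ∀ ρ, c ρ = 0 := by
      intro ρ
      rcases c1 with h | h <;> rcases c2 with h' | h' <;> fin_cases ρ <;> simp <;> linarith
    simpa [hcdef, i.2] using hz i
  inter := by
    intro σ hσ τ hτ
    ext x
    simp only [Set.mem_inter_iff, mem_cone]
    constructor
    · rintro ⟨⟨c, hc, c0, c1, c2⟩, ⟨d, hd, d0, d1, d2⟩⟩
      obtain ⟨p, q⟩ := sig_prop σ hσ
      obtain ⟨p', q'⟩ := sig_prop τ hτ
      have : c = d := uniq c d hc hd (p.imp (c0 _) (c0 _)) (q.imp (c0 _) (c0 _))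
        (p'.imp (d0 _) (d0 _)) (q'.imp (d0 _) (d0 _)) (by linarith) (by linarith)
      subst this
      refine ⟨c, hc, fun ρ hρ => ?_, c1, c2⟩
      rw [Finset.mem_inter, not_and_or] at hρ
      exact hρ.elim (c0 ρ) (d0 ρ)
    · rintro ⟨c, hc, c0, c1, c2⟩
      exact ⟨⟨c, hc, fun ρ h => c0 ρ (by simp [h]), c1, c2⟩,
        ⟨c, hc, fun ρ h => c0 ρ (by simp [h]), c1, c2⟩⟩
  complete := by
    intro x
    rcases le_total 0 (x 0) with h0 | h0
    · rcases le_total 0 (x 1) with h1 | h1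
      · refine ⟨{0, 1}, by decide, (mem_cone _ _).2 ⟨![x 0, x 1, 0, 0], ?_, ?_, by simp, by simp⟩⟩
        · intro ρ; fin_cases ρ <;> simp [h0, h1]
        · intro ρ; fin_cases ρ <;> simp
      · refine ⟨{0, 3}, by decide, (mem_cone _ _).2 ⟨![x 0, 0, 0, -x 1], ?_, ?_, by simp, by simp⟩⟩
        · intro ρ; fin_cases ρ <;> simp [h0, h1]
        · intro ρ; fin_cases ρ <;> simp
    · rcases le_total 0 (x 0 + x 1) with h1 | h1
      · refine ⟨{1, 2}, by decide,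
          (mem_cone _ _).2 ⟨![0, x 0 + x 1, -x 0, 0], ?_, ?_, by simp, by simp⟩⟩
        · intro ρ; fin_cases ρ <;> simp [h0, h1]
        · intro ρ; fin_cases ρ <;> simp
      · refine ⟨{2, 3}, by decide,
          (mem_cone _ _).2 ⟨![0, 0, -x 0, -(x 0 + x 1)], ?_, ?_, by simp, by simp⟩⟩
        · intro ρ; fin_cases ρ <;> simp [h0] ; linarith
        · intro ρ; fin_cases ρ <;> simp

theorem w2 : w u0 2 = w u0 0 := by
  refine (Submodule.Quotient.eq _).2 ⟨![-1, 0], ?_⟩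
  funext ρ
  fin_cases ρ <;> simp [u0, Matrix.mulVec, dotProduct, Fin.sum_univ_two]

theorem w3 : w u0 3 = w u0 0 + w u0 1 := by
  rw [w, w, w, ← Submodule.Quotient.mk_add]
  refine (Submodule.Quotient.eq _).2 ⟨![-1, -1], ?_⟩
  funext ρ
  fin_cases ρ <;> simp [u0, Matrix.mulVec, dotProduct, Fin.sum_univ_two]

theorem hX (i : Fin 4) : IsWeightedHomogeneous (w u0) (X i : MvPolynomial (Fin 4) ℂ) (w u0 i) :=
  isWeightedHomogeneous_X ℂ _ i

theorem hcast {p : MvPolynomial (Fin 4) ℂ} {a b : Cl u0} (h : IsWeightedHomogeneous (w u0) p a)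
    (e : a = b) : p ∈ comp u0 b := e ▸ h

def al : Fin 3 → Cl u0 :=
  ![w u0 0 + w u0 3, w u0 2 + w u0 3, w u0 0 + (w u0 1 + w u0 1)]

theorem homog (i : Fin 3) : F0 i ∈ comp u0 (al i) := by
  fin_cases i
  · refine Submodule.add_mem _ ((hX 0).mul (hX 3)) ?_
    rw [sq]
    refine hcast (((hX 2).mul (hX 2)).mul (hX 1)) ?_
    simp only [al, w2, w3]; simp [add_assoc]
  · exact (hX 2).mul (hX 3)
  · show X 0 * X 1 ^ 2 ∈ _
    rw [sq]
    exact (hX 0).mul ((hX 1).mul (hX 1))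

theorem gen_mem (σ : Finset (Fin 4)) (hσ : σ ∈ Sig0) (i j : Fin 4) (hij : i ≠ j)
    (h : σᶜ = {i, j}) : (X i * X j : MvPolynomial (Fin 4) ℂ) ∈ irr Sig0 :=
  Ideal.subset_span ⟨σ, hσ, by rw [h, Finset.prod_pair hij]⟩

theorem memB (i : Fin 3) : F0 i ∈ irr Sig0 := by
  have h03 := gen_mem {1, 2} (by decide) 0 3 (by decide) (by decide)
  have h21 := gen_mem {0, 3} (by decide) 2 1 (by decide) (by decide)
  have h23 := gen_mem {0, 1} (by decide) 2 3 (by decide) (by decide)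
  have h01 := gen_mem {2, 3} (by decide) 0 1 (by decide) (by decide)
  fin_cases i
  · refine Ideal.add_mem _ h03 ?_
    rw [sq, mul_assoc]
    exact Ideal.mul_mem_left _ _ h21
  · exact h23
  · show X 0 * X 1 ^ 2 ∈ _
    rw [sq, ← mul_assoc]
    exact Ideal.mul_mem_right _ _ h01

theorem sig_prop' : ∀ σ ∈ Sig0, ((0 : Fin 4) ∈ σᶜ ∨ (2 : Fin 4) ∈ σᶜ) ∧
    ((1 : Fin 4) ∈ σᶜ ∨ (3 : Fin 4) ∈ σᶜ) := by decide

theorem nozero (z : Fin 4 → ℂ) (hz : ∀ i, eval z (F0 i) = 0) :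
    ∀ g ∈ irr Sig0, eval z g = 0 := by
  have h0 := hz 0
  have h1 := hz 1
  have h2 := hz 2
  simp [F0] at h0 h1 h2
  have key : (z 0 = 0 ∧ z 2 = 0) ∨ (z 1 = 0 ∧ z 3 = 0) := by
    rcases h1 with h1 | h1 <;> rcases h2 with h2 | h2 <;> simp_all
  intro g hg
  have : irr Sig0 ≤ RingHom.ker (eval z) := by
    refine Ideal.span_le.2 ?_
    rintro _ ⟨σ, hσ, rfl⟩
    obtain ⟨p, q⟩ := sig_prop' σ hσ
    simp only [SetLike.mem_coe, RingHom.mem_ker, map_prod, eval_X]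
    rcases key with ⟨a, b⟩ | ⟨a, b⟩
    · exact p.elim (fun h => Finset.prod_eq_zero h a) (fun h => Finset.prod_eq_zero h b)
    · exact q.elim (fun h => Finset.prod_eq_zero h a) (fun h => Finset.prod_eq_zero h b)
  exact this hg

noncomputable def e (a b c d : ℕ) : Fin 4 →₀ ℕ := Finsupp.equivFunOnFinite.symm ![a, b, c, d]

theorem e_apply (a b c d : ℕ) (i : Fin 4) : e a b c d i = ![a, b, c, d] i := rfl

theorem mono (a b c d : ℕ) : (monomial (e a b c d) 1 : MvPolynomial (Fin 4) ℂ) =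
    X 0 ^ a * X 1 ^ b * X 2 ^ c * X 3 ^ d := by
  rw [monomial_eq, Finsupp.prod_fintype _ _ (by simp), Fin.prod_univ_four]
  simp [e_apply]

theorem e_le (a b c d a' b' c' d' : ℕ) :
    e a b c d ≤ e a' b' c' d' ↔ a ≤ a' ∧ b ≤ b' ∧ c ≤ c' ∧ d ≤ d' := by
  rw [Finsupp.le_def, Fin.forall_fin_succ, Fin.forall_fin_succ, Fin.forall_fin_two]
  rfl

theorem e_sub (a b c d a' b' c' d' : ℕ) :
    e a b c d - e a' b' c' d' = e (a - a') (b - b') (c - c') (d - d') := by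
  ext i; fin_cases i <;> rfl

theorem e_inj (a b c d a' b' c' d' : ℕ) :
    e a b c d = e a' b' c' d' ↔ a = a' ∧ b = b' ∧ c = c' ∧ d = d' := by
  simp only [le_antisymm_iff (a := e a b c d), e_le]; omega

/-- Two linear functionals killing the ideal. -/
noncomputable def lam : MvPolynomial (Fin 4) ℂ →ₗ[ℂ] ℂ × ℂ :=
  (lcoeff ℂ (e 0 0 0 2)).prod (lcoeff ℂ (e 1 1 0 1) - lcoeff ℂ (e 0 2 2 0))

theorem lam_apply (g : MvPolynomial (Fin 4) ℂ) :
    lam g = (coeff (e 0 0 0 2) g, coeff (e 1 1 0 1) g - coeff (e 0 2 2 0) g) := rfl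

theorem lam_ideal (g : MvPolynomial (Fin 4) ℂ) (hg : g ∈ Ideal.span (Set.range F0)) :
    lam g = 0 := by
  obtain ⟨c, rfl⟩ := (Ideal.mem_span_range_iff_exists_fun).1 hg
  have f0 : F0 0 = monomial (e 1 0 0 1) 1 + monomial (e 0 1 2 0) 1 := by
    simp [mono, F0, mul_comm]
  have f1 : F0 1 = monomial (e 0 0 1 1) 1 := by simp [mono, F0]
  have f2 : F0 2 = monomial (e 1 2 0 0) 1 := by simp [mono, F0]
  rw [Fin.sum_univ_three, f0, f1, f2, lam_apply]
  simp [mul_add, coeff_mul_monomial', e_le, e_sub]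

theorem crit_eq : crit u0 al = w u0 3 + w u0 3 := by
  simp only [crit, Fin.sum_univ_three, Fin.sum_univ_four, al, w2, w3]
  simp; abel

/-- The codimension one conjecture fails on the first Hirzebruch surface. -/
theorem result : ∃ (n r : ℕ) (u : Fin r → Fin n → ℤ) (Sig : Finset (Finset (Fin r)))
    (F : Fin (n + 1) → MvPolynomial (Fin r) ℂ) (α : Fin (n + 1) → Cl u),
    IsCompleteSimplicialFan u Sig ∧
    (∀ i, F i ≠ 0 ∧ F i ∈ comp u (α i) ∧ F i ∈ irr Sig) ∧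
    (∀ z : Fin r → ℂ, (∀ i, eval z (F i) = 0) → ∀ g ∈ irr Sig, eval z g = 0) ∧
    2 ≤ codim (Ideal.span (Set.range F)) (comp u (crit u α)) := by
  refine ⟨2, 4, u0, Sig0, F0, al, fan, fun i => ⟨fun h => ?_, homog i, memB i⟩, nozero, ?_⟩
  · have := congrArg (eval fun _ => (1 : ℂ)) h
    fin_cases i <;> simp [F0] at this
  · rw [crit_eq, codim]
    set S := comp u0 (w u0 3 + w u0 3)
    set N := part (Ideal.span (Set.range F0)) S
    have hk : N ≤ LinearMap.ker (lam ∘ₗ S.subtype) := fun g hg => lam_ideal g.1 hg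
    have m1 : (monomial (e 0 0 0 2) 1 : MvPolynomial (Fin 4) ℂ) ∈ S := by
      have : (monomial (e 0 0 0 2) 1 : MvPolynomial (Fin 4) ℂ) = X 3 * X 3 := by
        simp [mono, sq]
      rw [this]; exact (hX 3).mul (hX 3)
    have m2 : (monomial (e 1 1 0 1) 1 : MvPolynomial (Fin 4) ℂ) ∈ S := by
      have : (monomial (e 1 1 0 1) 1 : MvPolynomial (Fin 4) ℂ) = X 0 * X 1 * X 3 := by
        simp [mono]
      rw [this]; exact hcast (((hX 0).mul (hX 1)).mul (hX 3)) (by rw [← w3])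
    have hs : Function.Surjective (N.liftQ (lam ∘ₗ S.subtype) hk) := by
      rintro ⟨a, b⟩
      refine ⟨Submodule.Quotient.mk (a • ⟨_, m1⟩ + b • ⟨_, m2⟩), ?_⟩
      rw [Submodule.liftQ_apply]
      simp [lam_apply, coeff_monomial, e_inj]
    have := LinearMap.rank_le_of_surjective _ hs
    simpa [rank_prod', one_add_one_eq_two] using this

end Pool.Agent.Results.MP_95a67a_ag.Counter
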